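import Mathlib
import Pool.Agent.Y859.SF.Stm

/-!
# Many elements of the window have a large prime factor
-/

set_option autoImplicit false

namespace Pool.Agent.Y573.SF

open Finset Pool.Agent.Y859.SF

lemma log_eq_sum_pf (n : ℕ) :
    Real.log n = ∑ q ∈ n.primeFactors, (n.factorization q : ℝ) * Real.log q := by
  rw [Real.log_nat_eq_sum_factorization, Finsupp.sum, Nat.support_factorization]

lemma log_split (n : ℕ) : Real.log n = ∑ q ∈ n.primeFactors, Real.log q +
    ∑ q ∈ n.primeFactors, ((n.factorization q : ℝ) - 1) * Real.log q := by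
  rw [log_eq_sum_pf, ← sum_add_distrib]
  refine sum_congr rfl fun q _ => ?_
  ring

lemma log_nn (q : ℕ) : 0 ≤ Real.log (q : ℝ) := Real.log_natCast_nonneg q

lemma fac_sub_nn {n q : ℕ} (hq : q ∈ n.primeFactors) :
    0 ≤ ((n.factorization q : ℝ) - 1) * Real.log q := by
  have hq' := Nat.mem_primeFactors.1 hq
  have h1 : 1 ≤ n.factorization q := hq'.1.factorization_pos_of_dvd hq'.2.2 hq'.2.1
  have h2 : (1 : ℝ) ≤ n.factorization q := by exact_mod_cast h1
  exact mul_nonneg (by linarith) (log_nn q)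

lemma sum_log_pf_le (n : ℕ) : ∑ q ∈ n.primeFactors, Real.log q ≤ Real.log n := by
  rw [log_split n]
  have := sum_nonneg (s := n.primeFactors)
    (f := fun q => ((n.factorization q : ℝ) - 1) * Real.log q) (fun q hq => fac_sub_nn hq)
  linarith

lemma sml_eq (e J M : ℕ) (z : ℝ) : sml e J M z =
    ∑ k ∈ Ioc M (M + J), ∑ q ∈ (PQ ⌊z⌋₊).filter (fun q => q ∣ 6 * k + e), Real.log q := by
  unfold sml cnt
  have h1 : ∀ k ∈ Ioc M (M + J), ∑ q ∈ (PQ ⌊z⌋₊).filter (fun q => q ∣ 6 * k + e), Real.log q =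
      ∑ q ∈ PQ ⌊z⌋₊, if q ∣ 6 * k + e then Real.log (q : ℝ) else 0 := by
    intro k _
    rw [sum_filter]
  rw [sum_congr rfl h1, sum_comm]
  refine sum_congr rfl fun q _ => ?_
  rw [← sum_filter, sum_const, nsmul_eq_mul, mul_comm]

theorem t_BIG : S_BIG := by
  intro τ hτ
  obtain ⟨N₀, hN₀⟩ := exists_nat_gt (Real.exp (9 / (2 * τ)))
  refine ⟨max N₀ 5, fun N hN e J M he hJ hM hMJ z β hβ0 hβ1 hz hzN hsml hrpt => ?_⟩
  by_contra hcon
  push Not at hcon
  have hN5 : 5 ≤ N := le_trans (le_max_right _ _) hN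
  have hNN₀ : N₀ ≤ N := le_trans (le_max_left _ _) hN
  have hNr : (5 : ℝ) ≤ N := by exact_mod_cast hN5
  have hN0 : (0 : ℝ) < N := by linarith
  set L := Real.log N with hL
  have hLlow : 9 / (2 * τ) < L := by
    rw [hL, Real.lt_log_iff_exp_lt hN0]
    exact lt_of_lt_of_le hN₀ (by exact_mod_cast hNN₀)
  have hL0 : 0 < L := lt_of_le_of_lt (by positivity) hLlow
  have hτL : 9 < 2 * τ * L := by
    rw [div_lt_iff₀ (by positivity)] at hLlow
    linarith
  have he5 : e ≤ 5 := by rcases he with rfl | rfl <;> norm_num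
  have hlow : ∀ k ∈ Ioc M (M + J), L - 3 ≤ Real.log ((6 * k + e : ℕ) : ℝ) := by
    intro k hk
    have hk1 := (mem_Ioc.1 hk).1
    have h1 : (3 / 10 : ℝ) * N ≤ ((6 * k + e : ℕ) : ℝ) := by
      have : (M : ℝ) ≤ k := by exact_mod_cast hk1.le
      push_cast
      have he0 : (0 : ℝ) ≤ e := by positivity
      linarith
    have h2 : Real.log ((3 / 10 : ℝ) * N) ≤ Real.log ((6 * k + e : ℕ) : ℝ) :=
      Real.log_le_log (by positivity) h1
    rw [Real.log_mul (by norm_num) hN0.ne'] at h2
    have h4 := Real.one_sub_inv_le_log_of_pos (show (0 : ℝ) < 3 / 10 by norm_num)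
    have h5 : (1 : ℝ) - (3 / 10)⁻¹ = - (7 / 3) := by norm_num
    rw [h5] at h4
    linarith
  have hup : ∀ k ∈ Ioc M (M + J), Real.log ((6 * k + e : ℕ) : ℝ) ≤ L + 6 := by
    intro k hk
    have hk2 := (mem_Ioc.1 hk).2
    have hk1 := (mem_Ioc.1 hk).1
    have h1 : ((6 * k + e : ℕ) : ℝ) ≤ 7 * N := by
      have : 6 * k + e ≤ 7 * N := by omega
      exact_mod_cast this
    have h0 : (0 : ℝ) < ((6 * k + e : ℕ) : ℝ) := by
      have : 0 < 6 * k + e := by omega
      exact_mod_cast this
    have h2 := Real.log_le_log h0 h1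
    rw [Real.log_mul (by norm_num) hN0.ne'] at h2
    have h3 := Real.log_le_sub_one_of_pos (show (0 : ℝ) < 7 by norm_num)
    linarith
  have key : ∀ k ∈ Ioc M (M + J), Real.log ((6 * k + e : ℕ) : ℝ) ≤
      (∑ q ∈ (PQ ⌊z⌋₊).filter (fun q => q ∣ 6 * k + e), Real.log (q : ℝ)) +
      (∑ q ∈ (6 * k + e).primeFactors,
        (((6 * k + e).factorization q : ℝ) - 1) * Real.log q) +
      (if k ∈ big e J M z then L + 6 else 0) := by
    intro k hk
    rw [log_split (6 * k + e)]
    have hn0 : 6 * k + e ≠ 0 := by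
      have := (mem_Ioc.1 hk).1
      omega
    have s1 := sum_filter_add_sum_filter_not (6 * k + e).primeFactors
      (fun q : ℕ => (q : ℝ) ≤ z) (fun q : ℕ => Real.log (q : ℝ))
    have p1 : ∑ q ∈ (6 * k + e).primeFactors.filter (fun q : ℕ => (q : ℝ) ≤ z),
        Real.log (q : ℝ) ≤
        ∑ q ∈ (PQ ⌊z⌋₊).filter (fun q => q ∣ 6 * k + e), Real.log (q : ℝ) := by
      refine sum_le_sum_of_subset_of_nonneg ?_ (fun q _ _ => log_nn q)
      intro q hq
      rw [mem_filter] at hq
      have hq' := Nat.mem_primeFactors.1 hq.1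
      rw [mem_filter]
      refine ⟨?_, hq'.2.1⟩
      unfold PQ
      rw [mem_filter, mem_Icc]
      refine ⟨⟨?_, Nat.le_floor hq.2⟩, hq'.1⟩
      by_contra hlt
      push Not at hlt
      have hpr := hq'.1
      have hdv := hq'.2.1
      have h2 := hpr.two_le
      interval_cases q
      · rcases he with rfl | rfl <;> omega
      · rcases he with rfl | rfl <;> omega
      · exact absurd hpr (by norm_num)
    have p2 : ∑ q ∈ (6 * k + e).primeFactors.filter (fun q : ℕ => ¬ (q : ℝ) ≤ z),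
        Real.log (q : ℝ) ≤ (if k ∈ big e J M z then L + 6 else 0) := by
      split_ifs with hb
      · refine le_trans ?_ (le_trans (sum_log_pf_le (6 * k + e)) (hup k hk))
        exact sum_le_sum_of_subset_of_nonneg (filter_subset _ _) (fun q _ _ => log_nn q)
      · have hemp : (6 * k + e).primeFactors.filter (fun q : ℕ => ¬ (q : ℝ) ≤ z) = ∅ := by
          rw [filter_eq_empty_iff]
          intro q hq hqz
          apply hb
          unfold big
          classical
          rw [mem_filter]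
          have hq' := Nat.mem_primeFactors.1 hq
          exact ⟨hk, q, hq'.1, not_le.1 hqz, hq'.2.1⟩
        rw [hemp, sum_empty]
    linarith
  have t1 := sum_le_sum hlow
  have t2 := sum_le_sum key
  rw [sum_add_distrib, sum_add_distrib, ← sml_eq] at t2
  have t3 : ∑ k ∈ Ioc M (M + J), (if k ∈ big e J M z then L + 6 else 0) ≤
      ((big e J M z).card : ℝ) * (L + 6) := by
    rw [sum_ite_mem, sum_const, nsmul_eq_mul]
    refine mul_le_mul_of_nonneg_right ?_ (by linarith)
    exact_mod_cast card_le_card inter_subset_right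
  rw [sum_const, Nat.card_Ioc, nsmul_eq_mul] at t1
  have t4 : ((M + J - M : ℕ) : ℝ) = J := by
    have : M + J - M = J := by omega
    rw [this]
  rw [t4] at t1
  have t5 : ∑ k ∈ Ioc M (M + J), ∑ q ∈ (6 * k + e).primeFactors,
        (((6 * k + e).factorization q : ℝ) - 1) * Real.log q = rpt e J M := rfl
  rw [t5] at t2
  have hJr : (1 : ℝ) ≤ J := by exact_mod_cast hJ
  have hc0 : (0 : ℝ) ≤ ((big e J M z).card : ℝ) := by positivity
  have hpos : 0 < (1 - β - 3 * τ) * J := lt_of_le_of_lt hc0 hcon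
  have t6 : ((big e J M z).card : ℝ) * (L + 6) ≤ (1 - β - 3 * τ) * J * (L + 6) :=
    mul_le_mul_of_nonneg_right hcon.le (by linarith)
  have t7 : J * (L - 3) ≤ β * J * L + τ * J * L + (1 - β - 3 * τ) * J * (L + 6) := by
    linarith
  have t8 : (L - 3) ≤ β * L + τ * L + (1 - β - 3 * τ) * (L + 6) := by
    have : (J : ℝ) * (L - 3) ≤ J * (β * L + τ * L + (1 - β - 3 * τ) * (L + 6)) := by
      linarith
    exact le_of_mul_le_mul_left this (by linarith)
  nlinarith

end Pool.Agent.Y573.SF
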