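import Mathlib
import Pool.Agent.Y859.SF.Stm

/-!
# The repeated prime factors are rarely many
-/

set_option autoImplicit false

namespace Pool.Agent.Y573.SF.PPf

open Finset Pool.Agent.Y859.SF

/-- the logarithm of the repeated part of `n` -/
noncomputable def gg (n : ℕ) : ℝ :=
  ∑ q ∈ n.primeFactors, ((n.factorization q : ℝ) - 1) * Real.log q

lemma log_nn (q : ℕ) : 0 ≤ Real.log (q : ℝ) := Real.log_natCast_nonneg q

lemma gg_nn (n : ℕ) : 0 ≤ gg n := by
  refine sum_nonneg fun q hq => ?_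
  have hq' := Nat.mem_primeFactors.1 hq
  have h1 : 1 ≤ n.factorization q := hq'.1.factorization_pos_of_dvd hq'.2.2 hq'.2.1
  have h2 : (1 : ℝ) ≤ n.factorization q := by exact_mod_cast h1
  exact mul_nonneg (by linarith) (log_nn q)

lemma gg_le (n : ℕ) (hn : n ≠ 0) : ∃ b : ℕ, 1 ≤ b ∧ b ^ 2 ∣ n ∧ gg n ≤ 2 * Real.log b := by
  obtain ⟨a, b, hab, hsq⟩ := Nat.sq_mul_squarefree n
  have hb : b ≠ 0 := by
    rintro rfl
    apply hn
    rw [← hab]
    ring
  have ha : a ≠ 0 := by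
    rintro rfl
    apply hn
    rw [← hab]
    ring
  refine ⟨b, Nat.one_le_iff_ne_zero.2 hb, ⟨a, hab.symm⟩, ?_⟩
  have h1 : ∀ q ∈ n.primeFactors, ((n.factorization q : ℝ) - 1) * Real.log q ≤
      2 * ((b.factorization q : ℝ) * Real.log q) := by
    intro q _
    have e1 : n.factorization q = 2 * b.factorization q + a.factorization q := by
      rw [← hab, Nat.factorization_mul (by positivity) ha, Nat.factorization_pow]
      simp
    have e2 : a.factorization q ≤ 1 := hsq.natFactorization_le_one q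
    have e3 : (n.factorization q : ℝ) - 1 ≤ 2 * b.factorization q := by
      have : n.factorization q ≤ 2 * b.factorization q + 1 := by omega
      have h : (n.factorization q : ℝ) ≤ 2 * b.factorization q + 1 := by exact_mod_cast this
      linarith
    have := mul_le_mul_of_nonneg_right e3 (log_nn q)
    linarith
  have h2 : ∑ q ∈ n.primeFactors, (b.factorization q : ℝ) * Real.log q = Real.log b := by
    rw [Real.log_nat_eq_sum_factorization, Finsupp.sum, Nat.support_factorization]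
    symm
    refine sum_subset (Nat.primeFactors_mono ⟨b * a, by rw [← hab]; ring⟩ hn) ?_
    intro q _ hq
    rw [← Nat.support_factorization, Finsupp.notMem_support_iff] at hq
    rw [hq]
    simp
  have h3 := sum_le_sum h1
  rw [← mul_sum, h2] at h3
  exact h3

lemma cnt_sq (N b e : ℕ) (he1 : 1 ≤ e) (he : e ≤ 5) :
    (((Ioc 0 (2 * N)).filter (fun k => b ^ 2 ∣ 6 * k + e)).card : ℝ) ≤ 17 * N / (b : ℝ) ^ 2 := by
  have h1 : ((Ioc 0 (2 * N)).filter (fun k => b ^ 2 ∣ 6 * k + e)).card ≤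
      ((Ioc 0 (17 * N)).filter (fun n => b ^ 2 ∣ n)).card := by
    refine card_le_card_of_injOn (fun k => 6 * k + e) ?_ ?_
    · intro k hk
      have hk' := mem_filter.1 (mem_coe.1 hk)
      have hk2 := mem_Ioc.1 hk'.1
      refine mem_coe.2 (mem_filter.2 ⟨mem_Ioc.2 ⟨?_, ?_⟩, hk'.2⟩)
      · show 0 < 6 * k + e
        omega
      · show 6 * k + e ≤ 17 * N
        omega
    · intro k _ k' _ h
      have h' : 6 * k + e = 6 * k' + e := h
      omega
  rw [Nat.Ioc_filter_dvd_card_eq_div] at h1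
  have h2 : ((17 * N / b ^ 2 : ℕ) : ℝ) ≤ ((17 * N : ℕ) : ℝ) / ((b ^ 2 : ℕ) : ℝ) := Nat.cast_div_le
  have h3 : (((Ioc 0 (2 * N)).filter (fun k => b ^ 2 ∣ 6 * k + e)).card : ℝ) ≤
      ((17 * N / b ^ 2 : ℕ) : ℝ) := by exact_mod_cast h1
  push_cast at h2
  refine le_trans h3 ?_
  exact_mod_cast h2

/-- the constant -/
noncomputable def T : ℝ := ∑' n : ℕ, (n : ℝ) ^ (-(3 / 2) : ℝ)

lemma T_nn : 0 ≤ T := tsum_nonneg fun n => by positivity

lemma sum_gg (N e : ℕ) (he1 : 1 ≤ e) (he : e ≤ 5) (hN : 1 ≤ N) :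
    ∑ k ∈ Ioc 0 (2 * N), gg (6 * k + e) ≤ 68 * T * N := by
  have h1 : ∀ k ∈ Ioc 0 (2 * N), gg (6 * k + e) ≤
      ∑ b ∈ Icc 1 (17 * N), if b ^ 2 ∣ 6 * k + e then 2 * Real.log (b : ℝ) else 0 := by
    intro k hk
    have hk2 := mem_Ioc.1 hk
    obtain ⟨b, hb1, hb2, hb3⟩ := gg_le (6 * k + e) (by omega)
    have hbn : b ≤ 17 * N := by
      have a1 := Nat.le_of_dvd (by omega) hb2
      nlinarith
    refine le_trans hb3 ?_
    have := single_le_sum (s := Icc 1 (17 * N))
      (f := fun b : ℕ => if b ^ 2 ∣ 6 * k + e then 2 * Real.log (b : ℝ) else 0)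
      (fun i _ => by
        split_ifs
        · exact mul_nonneg (by norm_num) (log_nn i)
        · exact le_refl _) (mem_Icc.2 ⟨hb1, hbn⟩)
    simp only [hb2, if_true] at this
    exact this
  refine le_trans (sum_le_sum h1) ?_
  rw [sum_comm]
  have h2 : ∀ b ∈ Icc 1 (17 * N),
      ∑ k ∈ Ioc 0 (2 * N), (if b ^ 2 ∣ 6 * k + e then 2 * Real.log (b : ℝ) else 0) ≤
        68 * N * (b : ℝ) ^ (-(3 / 2) : ℝ) := by
    intro b hb
    have hb1 : 1 ≤ b := (mem_Icc.1 hb).1
    have hbr : (0 : ℝ) < b := by exact_mod_cast hb1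
    rw [← sum_filter, sum_const, nsmul_eq_mul]
    have c1 := cnt_sq N b e he1 he
    have c2 : Real.log (b : ℝ) ≤ (b : ℝ) ^ (1 / 2 : ℝ) / (1 / 2) :=
      Real.log_le_rpow_div hbr.le (by norm_num)
    have c3 : (b : ℝ) ^ (1 / 2 : ℝ) / (b : ℝ) ^ 2 = (b : ℝ) ^ (-(3 / 2) : ℝ) := by
      rw [← Real.rpow_natCast, ← Real.rpow_sub hbr]
      norm_num
    calc (((Ioc 0 (2 * N)).filter (fun k => b ^ 2 ∣ 6 * k + e)).card : ℝ) *
          (2 * Real.log (b : ℝ)) ≤ (17 * N / (b : ℝ) ^ 2) * (2 * Real.log (b : ℝ)) :=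
            mul_le_mul_of_nonneg_right c1 (mul_nonneg (by norm_num) (log_nn b))
      _ ≤ (17 * N / (b : ℝ) ^ 2) * (2 * ((b : ℝ) ^ (1 / 2 : ℝ) / (1 / 2))) :=
            mul_le_mul_of_nonneg_left (by linarith) (by positivity)
      _ = 68 * N * ((b : ℝ) ^ (1 / 2 : ℝ) / (b : ℝ) ^ 2) := by ring
      _ = 68 * N * (b : ℝ) ^ (-(3 / 2) : ℝ) := by rw [c3]
  refine le_trans (sum_le_sum h2) ?_
  rw [← mul_sum]
  have h3 : ∑ b ∈ Icc 1 (17 * N), (b : ℝ) ^ (-(3 / 2) : ℝ) ≤ T := by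
    refine Summable.sum_le_tsum _ (fun i _ => by positivity) ?_
    exact Real.summable_nat_rpow.2 (by norm_num)
  have h4 : (0 : ℝ) ≤ 68 * N := by positivity
  calc 68 * (N : ℝ) * ∑ b ∈ Icc 1 (17 * N), (b : ℝ) ^ (-(3 / 2) : ℝ) ≤ 68 * N * T :=
        mul_le_mul_of_nonneg_left h3 h4
    _ = 68 * T * N := by ring

lemma rpt_eq (e J M : ℕ) : rpt e J M = ∑ j ∈ Ioc 0 J, gg (6 * (M + j) + e) := by
  have h : rpt e J M = ∑ k ∈ Ioc M (M + J), gg (6 * k + e) := rfl
  rw [h]
  symm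
  refine sum_bij (fun j _ => M + j) ?_ ?_ ?_ ?_
  · intro j hj
    have := mem_Ioc.1 hj
    exact mem_Ioc.2 ⟨by omega, by omega⟩
  · intro j _ j' _ h
    omega
  · intro k hk
    have := mem_Ioc.1 hk
    exact ⟨k - M, mem_Ioc.2 ⟨by omega, by omega⟩, by omega⟩
  · intro j _
    rfl

lemma sum_rpt (N J e : ℕ) (he1 : 1 ≤ e) (he : e ≤ 5) (hN : 1 ≤ N) (hJ : J ≤ N) :
    ∑ M ∈ range N, rpt e J M ≤ J * (68 * T * N) := by
  simp only [rpt_eq]
  rw [sum_comm]
  have h1 : ∀ j ∈ Ioc 0 J, ∑ M ∈ range N, gg (6 * (M + j) + e) ≤ 68 * T * N := by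
    intro j hj
    have hj' := mem_Ioc.1 hj
    refine le_trans ?_ (sum_gg N e he1 he hN)
    have h2 : ∑ M ∈ range N, gg (6 * (M + j) + e) =
        ∑ k ∈ (range N).image (fun M => M + j), gg (6 * k + e) := by
      rw [sum_image]
      intro a _ b _ h
      have h' : a + j = b + j := h
      omega
    rw [h2]
    refine sum_le_sum_of_subset_of_nonneg ?_ (fun k _ _ => gg_nn _)
    intro k hk
    obtain ⟨M, hM, rfl⟩ := mem_image.1 hk
    have := mem_range.1 hM
    exact mem_Ioc.2 ⟨by omega, by omega⟩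
  refine le_trans (sum_le_sum h1) ?_
  rw [sum_const, Nat.card_Ioc, nsmul_eq_mul]
  simp

lemma rpt_nn (e J M : ℕ) : 0 ≤ rpt e J M := by
  rw [rpt_eq]
  exact sum_nonneg fun j _ => gg_nn _

theorem t_PP : S_PP := by
  intro ε τ hε hτ
  obtain ⟨N₀, hN₀⟩ := exists_nat_gt (Real.exp (68 * T / (τ * ε)))
  refine ⟨max N₀ 2, fun N hN J hJ1 hJN e he1 he5 => ?_⟩
  have hN2 : 2 ≤ N := le_trans (le_max_right _ _) hN
  have hNN₀ : N₀ ≤ N := le_trans (le_max_left _ _) hN
  have hNr : (2 : ℝ) ≤ N := by exact_mod_cast hN2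
  have hN0 : (0 : ℝ) < N := by linarith
  have hLlow : 68 * T / (τ * ε) < Real.log N := by
    rw [Real.lt_log_iff_exp_lt hN0]
    exact lt_of_lt_of_le hN₀ (by exact_mod_cast hNN₀)
  have hL0 : 0 < Real.log N := Real.log_pos (by linarith)
  have hJr : (1 : ℝ) ≤ J := by exact_mod_cast hJ1
  classical
  refine ⟨(range N).filter (fun M => τ * J * Real.log N < rpt e J M), ?_, ?_⟩
  · have h1 : (((range N).filter (fun M => τ * J * Real.log N < rpt e J M)).card : ℝ) *
        (τ * J * Real.log N) ≤ J * (68 * T * N) := by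
      refine le_trans ?_ (sum_rpt N J e he1 he5 (by omega) hJN)
      calc (((range N).filter (fun M => τ * J * Real.log N < rpt e J M)).card : ℝ) *
            (τ * J * Real.log N) =
            ∑ _M ∈ (range N).filter (fun M => τ * J * Real.log N < rpt e J M),
              (τ * J * Real.log N) := by
              rw [sum_const, nsmul_eq_mul]
        _ ≤ ∑ M ∈ (range N).filter (fun M => τ * J * Real.log N < rpt e J M), rpt e J M :=
              sum_le_sum fun M hM => (mem_filter.1 hM).2.le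
        _ ≤ ∑ M ∈ range N, rpt e J M :=
              sum_le_sum_of_subset_of_nonneg (filter_subset _ _) (fun M _ _ => rpt_nn _ _ _)
    have h2 : 68 * T ≤ Real.log N * (τ * ε) := by
      rw [div_lt_iff₀ (by positivity)] at hLlow
      exact hLlow.le
    have h3 : (J : ℝ) * (68 * T * N) ≤ ε * N * (τ * J * Real.log N) := by
      have : (68 * T) * (J * N) ≤ (Real.log N * (τ * ε)) * (J * N) :=
        mul_le_mul_of_nonneg_right h2 (by positivity)
      linarith
    have h4 : 0 < τ * J * Real.log N := by positivity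
    exact le_of_mul_le_mul_right (le_trans h1 h3) h4
  · intro M hM hMB
    by_contra hcon
    push Not at hcon
    exact hMB (mem_filter.2 ⟨mem_range.2 hM, hcon⟩)

end Pool.Agent.Y573.SF.PPf

namespace Pool.Agent.Y573.SF

theorem t_PP : Pool.Agent.Y859.SF.S_PP := PPf.t_PP

end Pool.Agent.Y573.SF
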