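import Mathlib
import Pool.Agent.Y859.SF.Stm

/-!
# Large square divisors are rare
-/

set_option autoImplicit false

namespace Pool.Agent.Y573.SF

open Finset Pool.Agent.Y859.SF

/-- the number of the `m` in `(N, 2N]` in a residue class modulo `d` -/
lemma card_modEq_le (N i d : ℕ) (hd : 0 < d) :
    (((Ioc N (2 * N)).filter (fun m => m ≡ i [MOD d])).card : ℝ) ≤ N / d + 1 := by
  have h := Nat.Ioc_filter_modEq_card N (2 * N) hd i
  have hd' : (0 : ℚ) < d := by exact_mod_cast hd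
  have h1 : ((((Ioc N (2 * N)).filter (fun m => m ≡ i [MOD d])).card : ℤ) : ℚ) ≤ N / d + 1 := by
    rw [h]
    push_cast
    refine max_le ?_ (by positivity)
    have a1 : (⌊(((2 * N : ℕ) : ℚ) - i) / d⌋ : ℚ) ≤ (((2 * N : ℕ) : ℚ) - i) / d := Int.floor_le _
    have a2 : ((N : ℚ) - i) / d - 1 < (⌊((N : ℚ) - i) / d⌋ : ℚ) := Int.sub_one_lt_floor _
    push_cast at a1
    have a3 : ((2 * N : ℚ) - i) / d - (((N : ℚ) - i) / d) = N / d := by
      field_simp
      ring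
    linarith
  have h2 : ((((Ioc N (2 * N)).filter (fun m => m ≡ i [MOD d])).card : ℕ) : ℚ) ≤ N / d + 1 := by
    exact_mod_cast h1
  have h3 := (Rat.cast_le (K := ℝ)).2 h2
  push_cast at h3
  exact h3

theorem t_TYPZ : S_TYPZ := by
  intro ε h hε
  obtain ⟨Z, hZ⟩ := exists_nat_gt (2 * h / ε + 1)
  obtain ⟨N₁, hN₁⟩ := exists_nat_gt (8 * (h : ℝ) ^ 2 / ε ^ 2)
  have hZ0 : (0 : ℝ) < Z := lt_of_le_of_lt (by positivity) hZ
  have hZ1 : Z ≠ 0 := by
    rintro rfl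
    simp at hZ0
  refine ⟨Z, max (max N₁ h) (Z ^ 2), fun N hN => ?_⟩
  have hNN₁ : N₁ ≤ N := le_trans (le_trans (le_max_left _ _) (le_max_left _ _)) hN
  have hNh : h ≤ N := le_trans (le_trans (le_max_right _ _) (le_max_left _ _)) hN
  have hNZ : Z ^ 2 ≤ N := le_trans (le_max_right _ _) hN
  set K := Nat.sqrt (2 * N) with hK
  have hZK : Z ≤ K := by
    rw [hK, Nat.le_sqrt']
    omega
  refine ⟨(range h).biUnion (fun i => (Ioc Z K).biUnion
    (fun z => (Ioc N (2 * N)).filter (fun m => m ≡ i [MOD z ^ 2]))), ?_, ?_⟩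
  · have hinner : ∀ i ∈ range h, ((((Ioc Z K).biUnion
        (fun z => (Ioc N (2 * N)).filter (fun m => m ≡ i [MOD z ^ 2]))).card : ℕ) : ℝ) ≤
        N / Z + K := by
      intro i _
      have c1 : ((((Ioc Z K).biUnion
        (fun z => (Ioc N (2 * N)).filter (fun m => m ≡ i [MOD z ^ 2]))).card : ℕ) : ℝ) ≤
          ∑ z ∈ Ioc Z K, (((Ioc N (2 * N)).filter (fun m => m ≡ i [MOD z ^ 2])).card : ℝ) := by
        exact_mod_cast card_biUnion_le
      have c2 : ∑ z ∈ Ioc Z K, (((Ioc N (2 * N)).filter (fun m => m ≡ i [MOD z ^ 2])).card : ℝ) ≤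
          ∑ z ∈ Ioc Z K, ((N : ℝ) * ((z : ℝ) ^ 2)⁻¹ + 1) := by
        refine sum_le_sum fun z hz => ?_
        have hz0 : 0 < z := lt_of_le_of_lt (Nat.zero_le _) (mem_Ioc.1 hz).1
        have := card_modEq_le N i (z ^ 2) (by positivity)
        push_cast at this
        rw [div_eq_mul_inv] at this
        exact this
      have c3 : ∑ z ∈ Ioc Z K, ((N : ℝ) * ((z : ℝ) ^ 2)⁻¹ + 1) =
          N * ∑ z ∈ Ioc Z K, ((z : ℝ) ^ 2)⁻¹ + ((K - Z : ℕ) : ℝ) := by
        rw [sum_add_distrib, ← mul_sum]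
        simp
      have c4 : ∑ z ∈ Ioc Z K, ((z : ℝ) ^ 2)⁻¹ ≤ (Z : ℝ)⁻¹ - (K : ℝ)⁻¹ :=
        sum_Ioc_inv_sq_le_sub hZ1 hZK
      have c5 : (0 : ℝ) ≤ (K : ℝ)⁻¹ := by positivity
      have c6 : ((K - Z : ℕ) : ℝ) ≤ K := by
        exact_mod_cast Nat.sub_le _ _
      have c7 : (N : ℝ) * ∑ z ∈ Ioc Z K, ((z : ℝ) ^ 2)⁻¹ ≤ N * (Z : ℝ)⁻¹ :=
        mul_le_mul_of_nonneg_left (by linarith) (by positivity)
      rw [div_eq_mul_inv]
      linarith
    have c1 : ((((range h).biUnion (fun i => (Ioc Z K).biUnion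
        (fun z => (Ioc N (2 * N)).filter (fun m => m ≡ i [MOD z ^ 2])))).card : ℕ) : ℝ) ≤
        ∑ i ∈ range h, ((((Ioc Z K).biUnion
        (fun z => (Ioc N (2 * N)).filter (fun m => m ≡ i [MOD z ^ 2]))).card : ℕ) : ℝ) := by
      exact_mod_cast card_biUnion_le
    have c2 := sum_le_sum hinner
    rw [sum_const, card_range, nsmul_eq_mul] at c2
    refine le_trans c1 (le_trans c2 ?_)
    have hN0 : (0 : ℝ) ≤ N := by positivity
    have d1 : (h : ℝ) * (N / Z) ≤ ε / 2 * N := by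
      have : (h : ℝ) / Z ≤ ε / 2 := by
        rw [div_le_div_iff₀ hZ0 (by norm_num)]
        have e1 : 2 * (h : ℝ) / ε ≤ Z := by linarith
        rw [div_le_iff₀ hε] at e1
        linarith
      calc (h : ℝ) * (N / Z) = h / Z * N := by ring
        _ ≤ ε / 2 * N := mul_le_mul_of_nonneg_right this hN0
    have d2 : (h : ℝ) * K ≤ ε / 2 * N := by
      have e1 : ((K : ℕ) : ℝ) ^ 2 ≤ 2 * N := by
        have := Nat.sqrt_le' (2 * N)
        exact_mod_cast this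
      have e2 : 8 * (h : ℝ) ^ 2 ≤ ε ^ 2 * N := by
        have : 8 * (h : ℝ) ^ 2 / ε ^ 2 ≤ N := le_trans hN₁.le (by exact_mod_cast hNN₁)
        rw [div_le_iff₀ (by positivity)] at this
        linarith
      refine abs_le_of_sq_le_sq' ?_ (by positivity) |>.2
      calc ((h : ℝ) * K) ^ 2 = (h : ℝ) ^ 2 * (K : ℝ) ^ 2 := by ring
        _ ≤ (h : ℝ) ^ 2 * (2 * (N : ℝ)) := mul_le_mul_of_nonneg_left e1 (by positivity)
        _ = 8 * (h : ℝ) ^ 2 * ((N : ℝ) / 4) := by ring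
        _ ≤ ε ^ 2 * (N : ℝ) * ((N : ℝ) / 4) := mul_le_mul_of_nonneg_right e2 (by positivity)
        _ = (ε / 2 * (N : ℝ)) ^ 2 := by ring
    calc (h : ℝ) * (N / Z + K) = h * (N / Z) + h * K := by ring
      _ ≤ ε * N := by linarith
  · rintro m hNm hm2 ⟨i, z, hi, hz, hdvd⟩
    simp only [mem_biUnion, mem_range, mem_Ioc, mem_filter]
    have him : i < m := by omega
    have hpos : 0 < m - i := by omega
    have hle := Nat.le_of_dvd hpos hdvd
    refine ⟨i, hi, z, ⟨hz, ?_⟩, ⟨hNm, hm2⟩, ?_⟩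
    · rw [hK, Nat.le_sqrt']
      omega
    · exact ((Nat.modEq_iff_dvd' him.le).2 hdvd).symm

end Pool.Agent.Y573.SF
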